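import Mathlib

/-!
# Covering numbers of slowly varying functions of the distance in a Hilbert space

`PsiOK Ψ`: `0 ≤ Ψ ≤ 1` and `|Ψ s - Ψ t| ≤ |s - t| / μ` whenever `s, t ≥ μ > 0`
(so `Ψ` is Lipschitz in `log (1 + s)`, for instance).  The main theorem `cover` says that the
functions `j ↦ Ψ ‖w - p j‖` on `m` points `p j` have polynomially (in `m`) bounded
`ε`-separated sets in the sup norm, with a bound depending only on `ε`.
-/

set_option autoImplicit false
open scoped RealInnerProductSpace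

namespace Pool.Agent.H117R3.NullSys

variable {H : Type*} [NormedAddCommGroup H] [InnerProductSpace ℝ H]

/-- signed combination -/
noncomputable def comb {m T : ℕ} (η : ℝ) (q : Fin m → H) (c : Fin T → Fin m × SignType) : H :=
  ∑ t, (((c t).2 : ℝ) * η) • q (c t).1

theorem greedy {m : ℕ} (hm : 0 < m) (q : Fin m → H) {D η : ℝ} (hη : 0 ≤ η)
    (hD : ∀ j, ‖q j‖ ≤ D) :
    ∀ (T : ℕ) (u : H), ‖u‖ ^ 2 ≤ T * (η * D) ^ 2 →
      ∃ c : Fin T → Fin m × SignType, ∀ j, |⟪u - comb η q c, q j⟫| ≤ η * D ^ 2 := by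
  intro T
  induction T with
  | zero =>
    intro u hu
    have h0 : u = 0 := by
      have h1 : ‖u‖ ^ 2 ≤ 0 := by simpa using hu
      have h2 : ‖u‖ = 0 := by nlinarith [norm_nonneg u]
      simpa using h2
    refine ⟨fun i => i.elim0, fun j => ?_⟩
    simp only [comb, h0]
    simp
    positivity
  | succ T ih =>
    intro u hu
    by_cases h : ∀ j, |⟪u, q j⟫| ≤ η * D ^ 2
    · refine ⟨fun _ => (⟨0, hm⟩, 0), ?_⟩
      simpa [comb] using h
    · push Not at h
      obtain ⟨j, hj⟩ := h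
      obtain ⟨σ, hσ⟩ : ∃ σ : SignType, (σ : ℝ) * ⟪u, q j⟫ = |⟪u, q j⟫| :=
        ⟨SignType.sign ⟪u, q j⟫, by rw [sign_mul_self]⟩
      have hσ2 : ((σ : ℝ)) ^ 2 ≤ 1 := by
        cases σ <;> simp
      have h1 : ‖u - ((σ : ℝ) * η) • q j‖ ^ 2 ≤ T * (η * D) ^ 2 := by
        rw [norm_sub_sq_real, inner_smul_right, norm_smul, mul_pow, Real.norm_eq_abs, sq_abs]
        have h2 : ‖q j‖ ^ 2 ≤ D ^ 2 := pow_le_pow_left₀ (norm_nonneg _) (hD j) 2
        have h3 : ((σ : ℝ) * η) ^ 2 * ‖q j‖ ^ 2 ≤ η ^ 2 * D ^ 2 := by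
          have : ((σ : ℝ) * η) ^ 2 ≤ η ^ 2 := by
            rw [mul_pow]; nlinarith [sq_nonneg η]
          exact mul_le_mul this h2 (sq_nonneg _) (sq_nonneg _)
        have h4 : (σ : ℝ) * η * ⟪u, q j⟫ = η * |⟪u, q j⟫| := by rw [← hσ]; ring
        have h5 : η * (η * D ^ 2) ≤ η * |⟪u, q j⟫| := mul_le_mul_of_nonneg_left hj.le hη
        rw [h4]
        push_cast at hu
        nlinarith
      obtain ⟨c, hc⟩ := ih _ h1
      refine ⟨Fin.cons (j, σ) c, fun i => ?_⟩
      have h6 : u - comb η q (Fin.cons (j, σ) c : Fin (T + 1) → Fin m × SignType)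
          = (u - ((σ : ℝ) * η) • q j) - comb η q c := by
        simp [comb, Fin.sum_univ_succ, sub_sub]
      rw [h6]
      exact hc i

/-- slowly varying functions with values in `[0,1]` -/
structure PsiOK (Ψ : ℝ → ℝ) : Prop where
  nonneg : ∀ s, 0 ≤ Ψ s
  le_one : ∀ s, Ψ s ≤ 1
  slow : ∀ s t μ, 0 < μ → μ ≤ s → μ ≤ t → |Ψ s - Ψ t| ≤ |s - t| / μ

/-- the type of codes -/
abbrev Code (m A K T : ℕ) : Type :=
  Fin m × Fin m × (Fin (A + 1) ⊕ (Fin (A * K + 1) × (Fin T → Fin m × SignType)))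

/-- near vectors -/
noncomputable def nearv {m : ℕ} (p : Fin m → H) (x0 x1 : Fin m) (j : Fin m) : H :=
  open Classical in if ‖p j - p x0‖ ≤ ‖p x1 - p x0‖ then p j - p x0 else 0

/-- the relation between points and codes -/
def Rel (Ψ : ℝ → ℝ) {m : ℕ} (p : Fin m → H) (A K T : ℕ) (w : H) : Code m A K T → Prop
  | (x0, x1, s) =>
    (∀ j, ‖w - p x0‖ ≤ ‖w - p j‖) ∧
    (‖p x1 - p x0‖ ≤ K * ‖w - p x0‖ ∧
      ∀ j, ‖p j - p x0‖ ≤ K * ‖w - p x0‖ → ‖p j - p x0‖ ≤ ‖p x1 - p x0‖) ∧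
    match s with
    | Sum.inl a => K * ‖p x1 - p x0‖ ≤ ‖w - p x0‖ ∧ (a : ℕ) = ⌊A * Ψ ‖w - p x0‖⌋₊
    | Sum.inr (b, c) => ‖w - p x0‖ < K * ‖p x1 - p x0‖ ∧
        (b : ℕ) = ⌊A * (‖w - p x0‖ / ‖p x1 - p x0‖)⌋₊ ∧
        ∀ j, |⟪w - p x0 - comb (1 / (A : ℝ)) (nearv p x0 x1) c, nearv p x0 x1 j⟫|
          ≤ (1 / (A : ℝ)) * ‖p x1 - p x0‖ ^ 2

theorem exists_code {Ψ : ℝ → ℝ} (hΨ : PsiOK Ψ) {m : ℕ} (hm : 0 < m) (p : Fin m → H)
    (A K : ℕ) (hA : 0 < A) (w : H) : ∃ c : Code m A K ((K * A) ^ 2), Rel Ψ p A K _ w c := by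
  have : Nonempty (Fin m) := ⟨⟨0, hm⟩⟩
  obtain ⟨x0, hx0⟩ := Finite.exists_min (fun j => ‖w - p j‖)
  set r := ‖w - p x0‖ with hr
  have hr0 : 0 ≤ r := norm_nonneg _
  obtain ⟨x1, hx1m, hx1⟩ := Finset.exists_max_image
    (Finset.univ.filter (fun j => ‖p j - p x0‖ ≤ K * r)) (fun j => ‖p j - p x0‖)
    ⟨x0, by simp; positivity⟩
  have hx1m' : ‖p x1 - p x0‖ ≤ K * r := by simpa using hx1m
  have hx1' : ∀ j, ‖p j - p x0‖ ≤ K * r → ‖p j - p x0‖ ≤ ‖p x1 - p x0‖ := by
    intro j hj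
    exact hx1 j (by simpa using hj)
  set D := ‖p x1 - p x0‖ with hD
  have hA' : (0 : ℝ) < A := by exact_mod_cast hA
  by_cases hcase : K * D ≤ r
  · refine ⟨(x0, x1, Sum.inl ⟨⌊A * Ψ r⌋₊, ?_⟩), ?_⟩
    · rw [Nat.lt_succ_iff]
      apply Nat.floor_le_of_le
      have := hΨ.le_one r
      nlinarith
    · exact ⟨hx0, ⟨hx1m', hx1'⟩, hcase, rfl⟩
  · push Not at hcase
    have hDpos : 0 < D := by
      by_contra h
      have : D ≤ 0 := not_lt.mp h
      have hD0 : D = 0 := le_antisymm this (norm_nonneg _)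
      rw [hD0] at hcase
      simp at hcase
      linarith
    have hq : ∀ j, ‖nearv p x0 x1 j‖ ≤ D := by
      intro j
      unfold nearv
      split_ifs with h
      · exact h
      · simpa using hDpos.le
    have hu : ‖w - p x0‖ ^ 2 ≤ (((K * A) ^ 2 : ℕ) : ℝ) * ((1 / (A : ℝ)) * D) ^ 2 := by
      have h1 : (((K * A) ^ 2 : ℕ) : ℝ) * ((1 / (A : ℝ)) * D) ^ 2 = (K * D) ^ 2 := by
        push_cast
        field_simp
      rw [h1]
      exact pow_le_pow_left₀ hr0 hcase.le 2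
    obtain ⟨c, hc⟩ := greedy hm (nearv p x0 x1) (η := 1 / (A : ℝ)) (D := D) (by positivity) hq
      ((K * A) ^ 2) (w - p x0) hu
    refine ⟨(x0, x1, Sum.inr (⟨⌊A * (r / D)⌋₊, ?_⟩, c)), ?_⟩
    · rw [Nat.lt_succ_iff]
      apply Nat.floor_le_of_le
      push_cast
      have : r / D ≤ K := by
        rw [div_le_iff₀ hDpos]; exact hcase.le
      nlinarith
    · exact ⟨hx0, ⟨hx1m', hx1'⟩, hcase, rfl, hc⟩

theorem floor_close {x y : ℝ} (hx : 0 ≤ x) (hy : 0 ≤ y) (h : ⌊x⌋₊ = ⌊y⌋₊) : |x - y| ≤ 1 := by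
  have h1 := Nat.floor_le hx
  have h2 := Nat.lt_floor_add_one x
  have h3 := Nat.floor_le hy
  have h4 := Nat.lt_floor_add_one y
  rw [h] at h1 h2
  rw [abs_le]
  constructor <;> linarith

theorem close_of_rel {Ψ : ℝ → ℝ} (hΨ : PsiOK Ψ) {m : ℕ} (p : Fin m → H)
    {A K T : ℕ} (hK : 2 ≤ K) (hA : 0 < A) {w w' : H} {c : Code m A K T}
    (h : Rel Ψ p A K T w c) (h' : Rel Ψ p A K T w' c) (j : Fin m) :
    |Ψ ‖w - p j‖ - Ψ ‖w' - p j‖| ≤ 4 / K + 3 * (K : ℝ) ^ 3 / A := by
  obtain ⟨x0, x1, s⟩ := c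
  obtain ⟨hn, ⟨hx, hx'⟩, hs⟩ := h
  obtain ⟨hn', ⟨hy, hy'⟩, hs'⟩ := h'
  set r := ‖w - p x0‖ with hr
  set r' := ‖w' - p x0‖ with hr'
  set D := ‖p x1 - p x0‖ with hD
  have hr0 : 0 ≤ r := norm_nonneg _
  have hr0' : 0 ≤ r' := norm_nonneg _
  have hD0 : 0 ≤ D := norm_nonneg _
  have hKr : (2 : ℝ) ≤ K := by exact_mod_cast hK
  have hKpos : (0 : ℝ) < K := by linarith
  have hA' : (0 : ℝ) < A := by exact_mod_cast hA
  have hlast : 0 ≤ 3 * (K : ℝ) ^ 3 / A := by positivity
  have hfirst : 0 ≤ 4 / (K : ℝ) := by positivity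
  -- triangle inequalities
  have tri : |‖w - p j‖ - ‖p j - p x0‖| ≤ r := by
    have h1 : ‖w - p j‖ ≤ ‖w - p x0‖ + ‖p j - p x0‖ := by
      have := norm_sub_le (w - p x0) (p j - p x0)
      simpa using this
    have h2 : ‖p j - p x0‖ ≤ ‖w - p x0‖ + ‖w - p j‖ := by
      have := norm_sub_le (w - p x0) (w - p j)
      simpa using this
    rw [abs_le]; constructor <;> linarith
  have tri' : |‖w' - p j‖ - ‖p j - p x0‖| ≤ r' := by
    have h1 : ‖w' - p j‖ ≤ ‖w' - p x0‖ + ‖p j - p x0‖ := by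
      have := norm_sub_le (w' - p x0) (p j - p x0)
      simpa using this
    have h2 : ‖p j - p x0‖ ≤ ‖w' - p x0‖ + ‖w' - p j‖ := by
      have := norm_sub_le (w' - p x0) (w' - p j)
      simpa using this
    rw [abs_le]; constructor <;> linarith
  have trib : |‖w - p j‖ - r| ≤ ‖p j - p x0‖ := by
    have h1 : ‖w - p j‖ ≤ ‖w - p x0‖ + ‖p j - p x0‖ := by
      have := norm_sub_le (w - p x0) (p j - p x0)
      simpa using this
    have h2 : ‖w - p x0‖ ≤ ‖w - p j‖ + ‖p j - p x0‖ := by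
      have := norm_add_le (w - p j) (p j - p x0)
      simpa using this
    rw [abs_le]; constructor <;> linarith
  have trib' : |‖w' - p j‖ - r'| ≤ ‖p j - p x0‖ := by
    have h1 : ‖w' - p j‖ ≤ ‖w' - p x0‖ + ‖p j - p x0‖ := by
      have := norm_sub_le (w' - p x0) (p j - p x0)
      simpa using this
    have h2 : ‖w' - p x0‖ ≤ ‖w' - p j‖ + ‖p j - p x0‖ := by
      have := norm_add_le (w' - p j) (p j - p x0)
      simpa using this
    rw [abs_le]; constructor <;> linarith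
  by_cases hnear : ‖p j - p x0‖ ≤ D
  swap
  · -- far points
    push Not at hnear
    have hf : K * r < ‖p j - p x0‖ := by
      by_contra hcon
      exact absurd (hx' j (not_lt.mp hcon)) (not_le.mpr hnear)
    have hf' : K * r' < ‖p j - p x0‖ := by
      by_contra hcon
      exact absurd (hy' j (not_lt.mp hcon)) (not_le.mpr hnear)
    set d := ‖p j - p x0‖ with hd
    have hdpos : 0 < d := lt_of_le_of_lt hD0 hnear
    have hrd : r ≤ d / K := by rw [le_div_iff₀ hKpos]; linarith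
    have hrd' : r' ≤ d / K := by rw [le_div_iff₀ hKpos]; linarith
    have hdK : d / K ≤ d / 2 := by
      apply div_le_div_of_nonneg_left hdpos.le (by norm_num) hKr
    have t1 := abs_le.mp tri
    have t2 := abs_le.mp tri'
    have key := hΨ.slow ‖w - p j‖ ‖w' - p j‖ (d / 2) (by positivity) (by linarith) (by linarith)
    have h3 : |‖w - p j‖ - ‖w' - p j‖| ≤ 2 * (d / K) := by
      rw [abs_le]; constructor <;> linarith
    calc |Ψ ‖w - p j‖ - Ψ ‖w' - p j‖| ≤ |‖w - p j‖ - ‖w' - p j‖| / (d / 2) := key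
      _ ≤ 2 * (d / K) / (d / 2) := by gcongr
      _ = 4 / K := by field_simp; norm_num
      _ ≤ _ := by linarith
  · match s, hs, hs' with
    | Sum.inl a, hs, hs' =>
      obtain ⟨h1, h2⟩ := hs
      obtain ⟨h1', h2'⟩ := hs'
      have aux : ∀ (z : H) (ρ : ℝ), ρ = ‖z - p x0‖ → K * D ≤ ρ →
          |‖z - p j‖ - ρ| ≤ ‖p j - p x0‖ → |Ψ ‖z - p j‖ - Ψ ρ| ≤ 2 / K := by
        intro z ρ hρ hKD ht
        have hρ0 : 0 ≤ ρ := by rw [hρ]; exact norm_nonneg _
        rcases hρ0.eq_or_lt with h0 | hpos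
        · have hD1 : D = 0 := by
            rw [← h0] at hKD
            have : K * D ≤ 0 := hKD
            nlinarith
          have h5 : ‖p j - p x0‖ = 0 := le_antisymm (hnear.trans hD1.le) (norm_nonneg _)
          rw [h5] at ht
          have h6 : ‖z - p j‖ = ρ := by
            have := abs_nonpos_iff.mp ht
            linarith
          rw [h6]; simp; positivity
        · have hDρ : D ≤ ρ / K := by rw [le_div_iff₀ hKpos]; linarith
          have hρK : ρ / K ≤ ρ / 2 := div_le_div_of_nonneg_left hpos.le (by norm_num) hKr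
          have t := abs_le.mp ht
          have key := hΨ.slow ‖z - p j‖ ρ (ρ / 2) (by positivity) (by linarith) (by linarith)
          calc |Ψ ‖z - p j‖ - Ψ ρ| ≤ |‖z - p j‖ - ρ| / (ρ / 2) := key
            _ ≤ (ρ / K) / (ρ / 2) := by
              gcongr
              exact ht.trans (hnear.trans hDρ)
            _ = 2 / K := by field_simp
      have e1 := aux w r hr h1 trib
      have e2 := aux w' r' hr' h1' trib'
      have e3 : |Ψ r - Ψ r'| ≤ 1 / A := by
        have h7 := floor_close (mul_nonneg hA'.le (hΨ.nonneg r)) (mul_nonneg hA'.le (hΨ.nonneg r'))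
          (h2.symm.trans h2')
        have h8 : (A : ℝ) * Ψ r - A * Ψ r' = A * (Ψ r - Ψ r') := by ring
        rw [h8, abs_mul, abs_of_pos hA'] at h7
        rw [le_div_iff₀ hA']; linarith
      have e4 : 1 / (A : ℝ) ≤ 3 * (K : ℝ) ^ 3 / A := by
        apply div_le_div_of_nonneg_right _ hA'.le
        nlinarith [pow_le_pow_left₀ (by norm_num) hKr 3]
      have e5 : 4 / (K : ℝ) = 2 / K + 2 / K := by ring
      have a1 := abs_le.mp e1
      have a2 := abs_le.mp e2
      have a3 := abs_le.mp e3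
      rw [abs_le]; constructor <;> linarith
    | Sum.inr (b, c), hs, hs' =>
      obtain ⟨h1, h2, h3⟩ := hs
      obtain ⟨h1', h2', h3'⟩ := hs'
      have hDpos : 0 < D := by
        by_contra hcon
        have : D = 0 := le_antisymm (not_lt.mp hcon) hD0
        rw [this] at h1
        simp at h1
        linarith
      have hDr : D / K ≤ r := by rw [div_le_iff₀ hKpos]; linarith
      have hDr' : D / K ≤ r' := by rw [div_le_iff₀ hKpos]; linarith
      have hrr : |r - r'| ≤ D / A := by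
        have h7 := floor_close (x := A * (r / D)) (y := A * (r' / D)) (by positivity)
          (by positivity) (h2.symm.trans h2')
        have h8 : (A : ℝ) * (r / D) - A * (r' / D) = (A / D) * (r - r') := by ring
        rw [h8, abs_mul, abs_of_pos (by positivity)] at h7
        rw [le_div_iff₀ hA']
        have h9 : (A : ℝ) / D * |r - r'| = (|r - r'| * A) / D := by ring
        rw [h9, div_le_one hDpos] at h7
        linarith
      have hqj : nearv p x0 x1 j = p j - p x0 := by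
        unfold nearv; rw [if_pos hnear]
      have i1 := h3 j
      have i2 := h3' j
      rw [hqj] at i1 i2
      set v := comb (1 / (A : ℝ)) (nearv p x0 x1) c with hv
      set q := p j - p x0 with hq
      have hin : |⟪w - p x0, q⟫ - ⟪w' - p x0, q⟫| ≤ 2 * ((1 / (A : ℝ)) * D ^ 2) := by
        rw [inner_sub_left] at i1 i2
        have b1 := abs_le.mp i1
        have b2 := abs_le.mp i2
        rw [abs_le]; constructor <;> linarith
      have hs2 : ‖w - p j‖ ^ 2 = r ^ 2 - 2 * ⟪w - p x0, q⟫ + ‖q‖ ^ 2 := by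
        have : w - p j = (w - p x0) - q := by rw [hq]; abel
        rw [this, norm_sub_sq_real]
      have hs2' : ‖w' - p j‖ ^ 2 = r' ^ 2 - 2 * ⟪w' - p x0, q⟫ + ‖q‖ ^ 2 := by
        have : w' - p j = (w' - p x0) - q := by rw [hq]; abel
        rw [this, norm_sub_sq_real]
      set s := ‖w - p j‖ with hs
      set s' := ‖w' - p j‖ with hs'
      have hsr : r ≤ s := hn j
      have hsr' : r' ≤ s' := hn' j
      have hrK : r + r' ≤ 2 * (K * D) := by linarith
      have hdiff : |s ^ 2 - s' ^ 2| ≤ (D / A) * (2 * (K * D)) + 4 * ((1 / (A : ℝ)) * D ^ 2) := by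
        have h10 : s ^ 2 - s' ^ 2 = (r - r') * (r + r')
            - 2 * (⟪w - p x0, q⟫ - ⟪w' - p x0, q⟫) := by rw [hs2, hs2']; ring
        rw [h10]
        have h11 : |(r - r') * (r + r')| ≤ (D / A) * (2 * (K * D)) := by
          rw [abs_mul, abs_of_nonneg (by linarith : 0 ≤ r + r')]
          exact mul_le_mul hrr hrK (by linarith) (by positivity)
        calc |(r - r') * (r + r') - 2 * (⟪w - p x0, q⟫ - ⟪w' - p x0, q⟫)|
            ≤ |(r - r') * (r + r')| + |2 * (⟪w - p x0, q⟫ - ⟪w' - p x0, q⟫)| := abs_sub _ _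
          _ ≤ (D / A) * (2 * (K * D)) + 4 * ((1 / (A : ℝ)) * D ^ 2) := by
            rw [abs_mul (2 : ℝ)]
            simp only [Nat.abs_ofNat]
            linarith
      have hsum : 2 * (D / K) ≤ s + s' := by linarith
      have hDK : 0 < D / K := by positivity
      have hss : |s - s'| * (2 * (D / K)) ≤ (D / A) * (2 * (K * D)) + 4 * ((1 / (A : ℝ)) * D ^ 2) := by
        calc |s - s'| * (2 * (D / K)) ≤ |s - s'| * (s + s') :=
              mul_le_mul_of_nonneg_left hsum (abs_nonneg _)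
          _ = |s ^ 2 - s' ^ 2| := by
              rw [← abs_of_nonneg (by linarith : 0 ≤ s + s'), ← abs_mul]
              congr 1
              ring
          _ ≤ _ := hdiff
      have key := hΨ.slow s s' (D / K) hDK (by linarith) (by linarith)
      have hfin : |s - s'| / (D / K) ≤ (K : ℝ) ^ 3 / A + 2 * (K : ℝ) ^ 2 / A := by
        rw [div_le_iff₀ hDK]
        have h12 : ((K : ℝ) ^ 3 / A + 2 * (K : ℝ) ^ 2 / A) * (D / K) * (2 * (D / K))
            = (D / A) * (2 * (K * D)) + 4 * ((1 / (A : ℝ)) * D ^ 2) := by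
          field_simp
          ring
        have h13 : 0 < 2 * (D / K) := by positivity
        by_contra hcon
        push Not at hcon
        have h14 := mul_lt_mul_of_pos_right hcon h13
        linarith
      have h15 : (K : ℝ) ^ 2 ≤ (K : ℝ) ^ 3 := pow_le_pow_right₀ (by linarith) (by norm_num)
      have h16 : (K : ℝ) ^ 3 / A + 2 * (K : ℝ) ^ 2 / A ≤ 3 * (K : ℝ) ^ 3 / A := by
        rw [← add_div]
        exact div_le_div_of_nonneg_right (by linarith) hA'.le
      linarith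

/-- Polynomial bound for the size of separated families. -/
theorem cover {Ψ : ℝ → ℝ} (hΨ : PsiOK Ψ) {ε : ℝ} (hε : 0 < ε) :
    ∃ C T : ℕ, ∀ m : ℕ, 0 < m → ∀ (p : Fin m → H) {ι : Type} (F : Finset ι) (w : ι → H),
      (∀ x ∈ F, ∀ y ∈ F, x ≠ y → ∃ j, ε ≤ |Ψ ‖w x - p j‖ - Ψ ‖w y - p j‖|) →
        F.card ≤ C * m ^ T := by
  obtain ⟨K, hK⟩ := exists_nat_gt (max 2 (8 / ε))
  have hK2 : (2 : ℝ) < K := lt_of_le_of_lt (le_max_left _ _) hK
  have hK2' : 2 ≤ K := by
    have : (2 : ℝ) ≤ K := hK2.le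
    exact_mod_cast this
  have hK8 : 8 / ε < K := lt_of_le_of_lt (le_max_right _ _) hK
  have hKpos : (0 : ℝ) < K := by linarith
  obtain ⟨A, hA⟩ := exists_nat_gt (6 * (K : ℝ) ^ 3 / ε)
  have hApos : (0 : ℝ) < A := lt_of_le_of_lt (by positivity) hA
  have hA0 : 0 < A := by exact_mod_cast hApos
  have hbd : 4 / K + 3 * (K : ℝ) ^ 3 / A < ε := by
    have h1 : 4 / (K : ℝ) < ε / 2 := by
      rw [div_lt_iff₀ hKpos]
      rw [div_lt_iff₀ hε] at hK8
      linarith
    have h2 : 3 * (K : ℝ) ^ 3 / A < ε / 2 := by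
      rw [div_lt_iff₀ hApos]
      rw [div_lt_iff₀ hε] at hA
      linarith
    linarith
  set T := (K * A) ^ 2 with hT
  refine ⟨(A + 1) + (A * K + 1) * 3 ^ T, T + 2, ?_⟩
  intro m hm p ι F w hsep
  choose code hcode using fun x : ι => exists_code hΨ hm p A K hA0 (w x)
  have hinj : Set.InjOn code (F : Set ι) := by
    intro x hx y hy hxy
    by_contra hne
    obtain ⟨j, hj⟩ := hsep x hx y hy hne
    have h1 := hcode x
    have h2 := hcode y
    rw [← hxy] at h2
    have := close_of_rel hΨ p hK2' hA0 h1 h2 j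
    linarith
  have hcard : F.card ≤ Fintype.card (Code m A K T) := by
    rw [← Finset.card_univ]
    exact Finset.card_le_card_of_injOn code (fun _ _ => Finset.mem_univ _) hinj
  refine hcard.trans ?_
  have hc : Fintype.card (Code m A K T) = m * (m * ((A + 1) + (A * K + 1) * (m * 3) ^ T)) := by
    have hs3 : Fintype.card SignType = 3 := by decide
    simp [Code, Fintype.card_prod, Fintype.card_sum, Fintype.card_fin, hs3]
  rw [hc]
  have h1 : 1 ≤ m ^ T := Nat.one_le_pow _ _ hm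
  calc m * (m * ((A + 1) + (A * K + 1) * (m * 3) ^ T))
      ≤ m * (m * ((A + 1) * m ^ T + (A * K + 1) * (m * 3) ^ T)) := by
        gcongr
        nlinarith
    _ = ((A + 1) + (A * K + 1) * 3 ^ T) * m ^ (T + 2) := by
        rw [mul_pow]; ring

end Pool.Agent.H117R3.NullSys
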