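import Mathlib

/-!
# An unbounded recurrent cocycle in a Hilbert space

`vec i = (exp (2 π I i / N l) - 1)_l` with `N l = 2 ^ l * l!`.
-/

set_option autoImplicit false
open Filter Topology
open scoped Nat

namespace Pool.Agent.H117R3.NullSys

/-- the moduli -/
def NN (l : ℕ) : ℕ := 2 ^ l * l !

theorem NN_pos (l : ℕ) : 0 < NN l := by unfold NN; positivity

theorem NN_succ (l : ℕ) : NN (l + 1) = 2 * (l + 1) * NN l := by
  unfold NN; rw [pow_succ, Nat.factorial_succ]; ring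

theorem NN_dvd {k l : ℕ} (h : k ≤ l) : NN k ∣ NN l :=
  mul_dvd_mul (pow_dvd_pow 2 h) (Nat.factorial_dvd_factorial h)

/-- the exponentials -/
noncomputable def EE (l : ℕ) (i : ℤ) : ℂ :=
  Complex.exp (Complex.I * ((2 * Real.pi * i / NN l : ℝ) : ℂ))

theorem EE_zero (l : ℕ) : EE l 0 = 1 := by simp [EE]

theorem EE_add (l : ℕ) (i j : ℤ) : EE l (i + j) = EE l i * EE l j := by
  unfold EE
  rw [← Complex.exp_add]
  congr 1
  push_cast
  ring

theorem norm_EE (l : ℕ) (i : ℤ) : ‖EE l i‖ = 1 := by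
  unfold EE
  rw [mul_comm]
  exact Complex.norm_exp_ofReal_mul_I _

theorem EE_of_dvd {l : ℕ} {i : ℤ} (h : (NN l : ℤ) ∣ i) : EE l i = 1 := by
  obtain ⟨q, rfl⟩ := h
  unfold EE
  rw [Complex.exp_eq_one_iff]
  refine ⟨q, ?_⟩
  have : (NN l : ℂ) ≠ 0 := by exact_mod_cast (NN_pos l).ne'
  push_cast
  field_simp

theorem EE_half (l : ℕ) : EE (l + 1) (((l + 1) * NN l : ℕ) : ℤ) = -1 := by
  unfold EE
  have h1 : (NN l : ℝ) ≠ 0 := by exact_mod_cast (NN_pos l).ne'
  have h2 : (2 * Real.pi * (((l + 1) * NN l : ℕ) : ℤ) / NN (l + 1) : ℝ) = Real.pi := by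
    rw [NN_succ]
    push_cast
    field_simp
  rw [h2, mul_comm, Complex.exp_pi_mul_I]

theorem norm_EE_sub_one (l : ℕ) (i : ℤ) : ‖EE l i - 1‖ ≤ 2 * Real.pi * |(i : ℝ)| / NN l := by
  have h := Real.norm_exp_I_mul_ofReal_sub_one_le (x := 2 * Real.pi * i / NN l)
  unfold EE
  refine h.trans (le_of_eq ?_)
  rw [Real.norm_eq_abs, abs_div, abs_mul, abs_of_pos Real.two_pi_pos, Nat.abs_cast]

theorem NN_ge (l : ℕ) : (2 : ℝ) ^ l ≤ NN l := by
  unfold NN
  push_cast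
  have : (1 : ℝ) ≤ (l ! : ℝ) := by exact_mod_cast Nat.one_le_iff_ne_zero.mpr (Nat.factorial_ne_zero l)
  nlinarith [pow_pos (by norm_num : (0 : ℝ) < 2) l]

theorem summable_aux (i : ℤ) : Summable fun l => ‖EE l i - 1‖ ^ 2 := by
  have h : Summable fun l : ℕ => (2 * Real.pi * |(i : ℝ)|) ^ 2 * (1 / 4 : ℝ) ^ l :=
    (summable_geometric_of_lt_one (by norm_num) (by norm_num)).mul_left _
  refine Summable.of_nonneg_of_le (fun l => by positivity) (fun l => ?_) h
  have h1 := norm_EE_sub_one l i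
  have h2 : 2 * Real.pi * |(i : ℝ)| / NN l ≤ 2 * Real.pi * |(i : ℝ)| / 2 ^ l := by
    apply div_le_div_of_nonneg_left (by positivity) (by positivity) (NN_ge l)
  calc ‖EE l i - 1‖ ^ 2 ≤ (2 * Real.pi * |(i : ℝ)| / 2 ^ l) ^ 2 :=
        pow_le_pow_left₀ (norm_nonneg _) (h1.trans h2) 2
    _ = (2 * Real.pi * |(i : ℝ)|) ^ 2 * (1 / 4 : ℝ) ^ l := by
      rw [div_pow, ← pow_mul, mul_comm l 2, pow_mul]
      norm_num
      rw [div_eq_mul_inv, one_div, inv_pow]

/-- the Hilbert space -/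
abbrev HH : Type := lp (fun _ : ℕ => ℂ) 2

/-- the cocycle -/
noncomputable def vec (i : ℤ) : HH :=
  ⟨fun l => EE l i - 1, by
    apply memℓp_gen
    simpa using summable_aux i⟩

theorem vec_apply (i : ℤ) (l : ℕ) : (vec i : ∀ _ : ℕ, ℂ) l = EE l i - 1 := rfl

theorem vec_zero : vec 0 = 0 := by
  ext l; simp [vec_apply, EE_zero]

theorem norm_sq_eq (x : HH) : ‖x‖ ^ 2 = ∑' l, ‖x l‖ ^ 2 := by
  have h := lp.norm_rpow_eq_tsum (p := 2) (by norm_num) x
  simpa using h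

theorem hasSum_norm_sq (x : HH) : Summable fun l => ‖x l‖ ^ 2 := by
  have h := (lp.hasSum_norm (p := 2) (by norm_num) x).summable
  simpa using h

theorem vec_translate (i j k : ℤ) : ‖vec (i + k) - vec (j + k)‖ = ‖vec i - vec j‖ := by
  have h : ‖vec (i + k) - vec (j + k)‖ ^ 2 = ‖vec i - vec j‖ ^ 2 := by
    rw [norm_sq_eq, norm_sq_eq]
    congr 1
    funext l
    have h1 : (vec (i + k) - vec (j + k) : HH) l = EE l k * ((vec i - vec j : HH) l) := by
      rw [lp.coeFn_sub, lp.coeFn_sub, Pi.sub_apply, Pi.sub_apply]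
      simp only [vec_apply, EE_add]
      ring
    rw [h1, norm_mul, norm_EE, one_mul]
  exact (sq_eq_sq₀ (norm_nonneg _) (norm_nonneg _)).mp h

theorem vec_recurrent : Tendsto (fun k : ℕ => ‖vec (NN k)‖) atTop (𝓝 0) := by
  have h : Tendsto (fun k : ℕ => ∑' l, ‖EE l (NN k : ℤ) - 1‖ ^ 2) atTop (𝓝 (∑' _ : ℕ, (0 : ℝ))) := by
    refine tendsto_tsum_of_dominated_convergence (bound := fun l : ℕ => Real.pi ^ 2 * (1 / (l : ℝ) ^ 2))
      ?_ ?_ ?_
    · exact (Real.summable_one_div_nat_pow.mpr (by norm_num)).mul_left _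
    · intro l
      apply tendsto_const_nhds.congr'
      filter_upwards [eventually_ge_atTop l] with k hk
      rw [EE_of_dvd (by exact_mod_cast NN_dvd hk)]
      simp
    · refine Eventually.of_forall fun k l => ?_
      rw [Real.norm_of_nonneg (by positivity)]
      rcases le_or_gt l k with hlk | hlk
      · rw [EE_of_dvd (by exact_mod_cast NN_dvd hlk)]
        simp
        positivity
      · obtain ⟨l', rfl⟩ : ∃ l', l = l' + 1 := ⟨l - 1, by omega⟩
        have h1 := norm_EE_sub_one (l' + 1) (NN k : ℤ)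
        have h2 : (NN k : ℝ) ≤ NN l' := by
          exact_mod_cast Nat.le_of_dvd (NN_pos _) (NN_dvd (by omega))
        have h3 : 2 * Real.pi * |((NN k : ℤ) : ℝ)| / NN (l' + 1) ≤ Real.pi / (l' + 1) := by
          rw [NN_succ]
          have h4 : (0 : ℝ) < NN l' := by exact_mod_cast NN_pos l'
          push_cast
          rw [abs_of_nonneg (by positivity), div_le_div_iff₀ (by positivity) (by positivity)]
          have h5 : 0 < Real.pi * ((l' : ℝ) + 1) := by positivity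
          nlinarith
        calc ‖EE (l' + 1) (NN k : ℤ) - 1‖ ^ 2 ≤ (Real.pi / (l' + 1)) ^ 2 :=
              pow_le_pow_left₀ (norm_nonneg _) (h1.trans h3) 2
          _ = Real.pi ^ 2 * (1 / ((l' + 1 : ℕ) : ℝ) ^ 2) := by
            rw [div_pow]; push_cast; ring
  have h' : Tendsto (fun k : ℕ => ‖vec (NN k)‖ ^ 2) atTop (𝓝 0) := by
    simpa [norm_sq_eq, vec_apply] using h
  have h'' := (Real.continuous_sqrt.tendsto 0).comp h'
  simpa [Function.comp_def, Real.sqrt_sq (norm_nonneg _)] using h''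

theorem partial_large (n : ℕ) : ∃ i : ℕ, (2 : ℝ) * n ≤ ∑ l ∈ Finset.range n, ‖EE (l + 1) i - 1‖ ^ 2 := by
  induction n with
  | zero => exact ⟨0, by simp⟩
  | succ n ih =>
    obtain ⟨i, hi⟩ := ih
    have hpar : ‖EE (n + 1) i - 1‖ ^ 2 + ‖EE (n + 1) ((i + (n + 1) * NN n : ℕ) : ℤ) - 1‖ ^ 2 = 4 := by
      have h1 : EE (n + 1) ((i + (n + 1) * NN n : ℕ) : ℤ) = - EE (n + 1) i := by
        rw [Nat.cast_add, EE_add, EE_half]; ring
      rw [h1]
      have h2 := parallelogram_law_with_norm ℝ (EE (n + 1) i) (1 : ℂ)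
      have h3 : ‖- EE (n + 1) i - 1‖ = ‖EE (n + 1) i + 1‖ := by
        rw [← norm_neg]; congr 1; ring
      rw [h3]
      rw [norm_EE, norm_one] at h2
      nlinarith
    by_cases hc : 2 ≤ ‖EE (n + 1) i - 1‖ ^ 2
    · refine ⟨i, ?_⟩
      rw [Finset.sum_range_succ]
      push_cast
      linarith
    · refine ⟨i + (n + 1) * NN n, ?_⟩
      rw [Finset.sum_range_succ]
      have h4 : ∑ l ∈ Finset.range n, ‖EE (l + 1) ((i + (n + 1) * NN n : ℕ) : ℤ) - 1‖ ^ 2
          = ∑ l ∈ Finset.range n, ‖EE (l + 1) i - 1‖ ^ 2 := by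
        apply Finset.sum_congr rfl
        intro l hl
        have hl' : l + 1 ≤ n := Finset.mem_range.mp hl
        have h5 : EE (l + 1) ((i + (n + 1) * NN n : ℕ) : ℤ) = EE (l + 1) i := by
          rw [Nat.cast_add, EE_add, EE_of_dvd (i := (((n + 1) * NN n : ℕ) : ℤ)), mul_one]
          exact_mod_cast (NN_dvd hl').mul_left _
        rw [h5]
      rw [h4]
      push_cast at hc hpar ⊢
      linarith

theorem vec_unbounded (M : ℝ) : ∃ i : ℕ, M ≤ ‖vec i‖ := by
  obtain ⟨n, hn⟩ := exists_nat_ge (M ^ 2)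
  obtain ⟨i, hi⟩ := partial_large n
  refine ⟨i, ?_⟩
  have h1 : ∑ l ∈ Finset.range n, ‖EE (l + 1) i - 1‖ ^ 2 ≤ ‖vec i‖ ^ 2 := by
    rw [norm_sq_eq]
    have h2 := (hasSum_norm_sq (vec i))
    have h3 : ∑ l ∈ Finset.range n, ‖EE (l + 1) i - 1‖ ^ 2
        = ∑ l ∈ (Finset.range n).map ⟨Nat.succ, Nat.succ_injective⟩, ‖(vec i : ∀ _ : ℕ, ℂ) l‖ ^ 2 := by
      rw [Finset.sum_map]; rfl
    rw [h3]
    exact h2.sum_le_tsum _ (fun _ _ => by positivity)
  have h4 : M ^ 2 ≤ ‖vec i‖ ^ 2 := by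
    have : (0 : ℝ) ≤ n := Nat.cast_nonneg n
    linarith
  exact le_of_abs_le (by simpa using abs_le_of_sq_le_sq h4 (norm_nonneg _)) 

end Pool.Agent.H117R3.NullSys
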