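import Mathlib
import Pool.Agent.H117R3.NullSys.Cover
import Pool.Agent.H117R3.NullSys.Vec

/-!
# A null transitive system with two fixed points
-/

set_option autoImplicit false
open Filter Topology Uniformity

namespace Pool.Agent.H117R3.NullSys

/-- the slowly oscillating function -/
noncomputable def Psi (s : ℝ) : ℝ := (1 + Real.cos (Real.log (1 + |s|))) / 2

theorem abs_log_sub_le {s t μ : ℝ} (hμ : 0 < μ) (hs : μ ≤ s) (ht : μ ≤ t) :
    |Real.log (1 + s) - Real.log (1 + t)| ≤ |s - t| / μ := by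
  have key : ∀ s t : ℝ, μ ≤ t → t ≤ s → |Real.log (1 + s) - Real.log (1 + t)| ≤ |s - t| / μ := by
    intro s t ht hts
    have h1 : 0 < 1 + t := by linarith
    have h2 : 0 < 1 + s := by linarith
    rw [abs_of_nonneg (by linarith [Real.log_le_log h1 (by linarith : 1 + t ≤ 1 + s)]),
      abs_of_nonneg (by linarith), ← Real.log_div h2.ne' h1.ne']
    have h3 := Real.log_le_sub_one_of_pos (div_pos h2 h1)
    have h4 : (1 + s) / (1 + t) - 1 = (s - t) / (1 + t) := by field_simp; ring
    rw [h4] at h3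
    refine h3.trans ?_
    apply div_le_div_of_nonneg_left (by linarith) hμ (by linarith)
  rcases le_total t s with h | h
  · exact key s t ht h
  · rw [abs_sub_comm, abs_sub_comm s t]
    exact key t s hs h

theorem psiOK : PsiOK Psi where
  nonneg s := by
    unfold Psi
    have := Real.neg_one_le_cos (Real.log (1 + |s|))
    linarith
  le_one s := by
    unfold Psi
    have := Real.cos_le_one (Real.log (1 + |s|))
    linarith
  slow s t μ hμ hs ht := by
    unfold Psi
    rw [abs_of_nonneg (hμ.le.trans hs), abs_of_nonneg (hμ.le.trans ht)]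
    have h1 := Real.abs_cos_sub_cos_le (Real.log (1 + s)) (Real.log (1 + t))
    have h2 := abs_log_sub_le hμ hs ht
    have h3 : (1 + Real.cos (Real.log (1 + s))) / 2 - (1 + Real.cos (Real.log (1 + t))) / 2
        = (1 / 2) * (Real.cos (Real.log (1 + s)) - Real.cos (Real.log (1 + t))) := by ring
    rw [h3, abs_mul, abs_of_pos (by norm_num : (0 : ℝ) < 1 / 2)]
    have h4 := abs_nonneg (Real.cos (Real.log (1 + s)) - Real.cos (Real.log (1 + t)))
    linarith

theorem continuous_Psi : Continuous Psi := by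
  unfold Psi
  apply Continuous.div_const
  apply Continuous.add continuous_const
  apply Real.continuous_cos.comp
  apply Continuous.log (by fun_prop)
  intro x
  positivity

/-- the space of sequences -/
abbrev Om : Type := ℕ → Set.Icc (0 : ℝ) 1

noncomputable def ff (i : ℤ) : Set.Icc (0 : ℝ) 1 :=
  ⟨Psi ‖vec i‖, psiOK.nonneg _, psiOK.le_one _⟩

noncomputable def orb (k : ℤ) : Om := fun j => ff (k + j)

def XX : Set Om := closure (Set.range fun k : ℕ => orb k)

def sh : Om → Om := fun y j => y (j + 1)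

theorem continuous_sh : Continuous sh := by
  unfold sh
  fun_prop

theorem sh_orb (k : ℤ) : sh (orb k) = orb (k + 1) := by
  funext j
  unfold sh orb
  congr 1
  push_cast
  ring

theorem sh_mapsTo : Set.MapsTo sh XX XX := by
  intro x hx
  refine map_mem_closure continuous_sh hx ?_
  rintro _ ⟨k, rfl⟩
  exact ⟨k + 1, by simp only; rw [sh_orb]; push_cast; rfl⟩

theorem isCompact_XX : IsCompact XX := isClosed_closure.isCompact

/-- the map of the system -/
def TT : XX → XX := fun x => ⟨sh x.1, sh_mapsTo x.2⟩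

theorem continuous_TT : Continuous TT :=
  (continuous_sh.comp continuous_subtype_val).subtype_mk _

/-- orbit points in `XX` -/
noncomputable def orbX (k : ℕ) : XX := ⟨orb k, subset_closure ⟨k, rfl⟩⟩

theorem TT_orbX (k : ℕ) : TT (orbX k) = orbX (k + 1) := by
  apply Subtype.ext
  show sh (orb k) = orb ((k + 1 : ℕ) : ℤ)
  rw [sh_orb]; push_cast; rfl

theorem TT_iter_orbX (n k : ℕ) : TT^[n] (orbX k) = orbX (k + n) := by
  induction n generalizing k with
  | zero => rfl
  | succ n ih => rw [Function.iterate_succ_apply, TT_orbX, ih]; congr 1; ring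

theorem dense_orbX : DenseRange orbX := by
  intro x
  rw [closure_subtype]
  have h : (Subtype.val '' Set.range orbX : Set Om) = Set.range fun k : ℕ => orb k := by
    rw [← Set.range_comp]; rfl
  rw [h]
  exact x.2

/-- the filter with the explicit basis of the product uniformity -/
def GG : Filter (Om × Om) where
  sets := {V | ∃ L : ℕ, ∃ e : ℝ, 0 < e ∧ ∀ x y : Om, (∀ l < L, dist (x l) (y l) < e) → (x, y) ∈ V}
  univ_sets := ⟨0, 1, one_pos, fun _ _ _ => trivial⟩
  sets_of_superset := by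
    rintro V W ⟨L, e, he, h⟩ hVW
    exact ⟨L, e, he, fun x y hxy => hVW (h x y hxy)⟩
  inter_sets := by
    rintro V W ⟨L, e, he, h⟩ ⟨L', e', he', h'⟩
    refine ⟨max L L', min e e', lt_min he he', fun x y hxy => ⟨h x y ?_, h' x y ?_⟩⟩
    · intro l hl
      exact lt_of_lt_of_le (hxy l (lt_of_lt_of_le hl (le_max_left _ _))) (min_le_left _ _)
    · intro l hl
      exact lt_of_lt_of_le (hxy l (lt_of_lt_of_le hl (le_max_right _ _))) (min_le_right _ _)

theorem unif_basis {V : Set (Om × Om)} (hV : V ∈ 𝓤 Om) :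
    ∃ L : ℕ, ∃ e : ℝ, 0 < e ∧ ∀ x y : Om, (∀ l < L, dist (x l) (y l) < e) → (x, y) ∈ V := by
  have h : GG ≤ 𝓤 Om := by
    rw [Pi.uniformity]
    refine le_iInf fun i => ?_
    intro W hW
    rw [mem_comap] at hW
    obtain ⟨W', hW', hsub⟩ := hW
    obtain ⟨e, he, hsub'⟩ := Metric.mem_uniformity_dist.mp hW'
    refine ⟨i + 1, e, he, fun x y hxy => hsub ?_⟩
    exact hsub' (hxy i (Nat.lt_succ_self i))
  exact h hV

theorem unif_basis_XX {V : Set (XX × XX)} (hV : V ∈ 𝓤 XX) :
    ∃ L : ℕ, ∃ e : ℝ, 0 < e ∧ ∀ x y : XX, (∀ l < L, dist (x.1 l) (y.1 l) < e) → (x, y) ∈ V := by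
  rw [uniformity_subtype, mem_comap] at hV
  obtain ⟨W, hW, hsub⟩ := hV
  obtain ⟨L, e, he, h⟩ := unif_basis hW
  exact ⟨L, e, he, fun x y hxy => hsub (h _ _ hxy)⟩

theorem poly_exp (C T L : ℕ) {δ : ℝ} (hδ : 0 < δ) :
    ∀ᶠ n : ℕ in atTop, ((C * (n * L) ^ T : ℕ) : ℝ) ≤ Real.exp (δ * n) := by
  have h := (isLittleO_pow_exp_pos_mul_atTop T hδ)
  have h2 : (fun n : ℕ => ((n : ℝ)) ^ T) =o[atTop] fun n : ℕ => Real.exp (δ * n) :=
    h.comp_tendsto tendsto_natCast_atTop_atTop
  have h3 := h2.def (c := 1 / ((C * L ^ T : ℕ) + 1 : ℝ)) (by positivity)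
  filter_upwards [h3] with n hn
  rw [Real.norm_of_nonneg (by positivity), Real.norm_of_nonneg (Real.exp_pos _).le] at hn
  push_cast
  have h4 : (0 : ℝ) < (C * L ^ T : ℕ) + 1 := by positivity
  rw [div_mul_eq_mul_div, one_mul, le_div_iff₀ h4] at hn
  have h5 : (0 : ℝ) ≤ (n : ℝ) ^ T := by positivity
  push_cast at hn
  calc (C : ℝ) * ((n : ℝ) * L) ^ T = (n : ℝ) ^ T * (C * L ^ T) := by rw [mul_pow]; ring
    _ ≤ (n : ℝ) ^ T * (C * L ^ T + 1) := by nlinarith
    _ ≤ _ := hn

theorem ff_eq (k s : ℤ) : ((ff (k + s) : Set.Icc (0 : ℝ) 1) : ℝ) = Psi ‖vec k - vec (-s)‖ := by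
  show Psi ‖vec (k + s)‖ = _
  congr 1
  have h := vec_translate k (-s) s
  rw [neg_add_cancel, vec_zero, sub_zero] at h
  exact h

/-- the system is null, for any compatible metric -/
theorem null_aux (inst : MetricSpace XX) (hinst : inst.toUniformSpace = instUniformSpaceSubtype)
    (a : ℕ → ℕ) (ε : ℝ) (hε : 0 < ε) (δ : ℝ) (hδ : 0 < δ) :
    ∀ᶠ n : ℕ in atTop, ∀ F : Finset XX,
      (∀ x ∈ F, ∀ y ∈ F, x ≠ y → ∃ i < n, ε ≤ dist (TT^[a i] x) (TT^[a i] y)) →
      (F.card : ℝ) ≤ Real.exp (δ * n) := by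
  have hV : {p : XX × XX | dist p.1 p.2 < ε / 3} ∈ @uniformity XX instUniformSpaceSubtype := by
    rw [← hinst]
    exact Metric.dist_mem_uniformity (by positivity)
  obtain ⟨L, e, he, hL⟩ := unif_basis_XX hV
  obtain ⟨C, T, hcov⟩ := cover (H := HH) psiOK he
  filter_upwards [poly_exp C T (L + 1) hδ, eventually_ge_atTop 1] with n hn hn1 F hF
  refine le_trans ?_ hn
  have hpos : 0 < n * (L + 1) := by positivity
  -- approximation by orbit points
  have happ : ∀ x : XX, ∃ k : ℕ, ∀ i < n, dist (TT^[a i] x) (TT^[a i] (orbX k)) < ε / 3 := by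
    intro x
    have hopen : IsOpen {y : XX | ∀ i < n, dist (TT^[a i] x) (TT^[a i] y) < ε / 3} := by
      have : {y : XX | ∀ i < n, dist (TT^[a i] x) (TT^[a i] y) < ε / 3}
          = ⋂ i ∈ Finset.range n, {y : XX | dist (TT^[a i] x) (TT^[a i] y) < ε / 3} := by
        ext y; simp
      rw [this]
      refine isOpen_biInter_finset fun i _ => ?_
      have hc : @Continuous XX XX instTopologicalSpaceSubtype instTopologicalSpaceSubtype TT^[a i] :=
        continuous_TT.iterate _
      have ho : IsOpen[inst.toUniformSpace.toTopologicalSpace]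
          {z : XX | dist (TT^[a i] x) z < ε / 3} := by
        have : {z : XX | dist (TT^[a i] x) z < ε / 3} = Metric.ball (TT^[a i] x) (ε / 3) := by
          ext z; simp [dist_comm]
        rw [this]
        exact Metric.isOpen_ball
      rw [hinst] at ho
      exact ho.preimage hc
    obtain ⟨k, hk⟩ := dense_orbX.exists_mem_open hopen ⟨x, fun i _ => by
      rw [dist_self]; positivity⟩
    exact ⟨k, hk⟩
  choose kk hkk using happ
  have := hcov (n * (L + 1)) hpos
    (fun idx => vec (-((a (finProdFinEquiv.symm idx).1 + ((finProdFinEquiv.symm idx).2 : ℕ) : ℕ) : ℤ)))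
    (ι := XX) F (fun x => vec (kk x)) ?_
  · exact_mod_cast this
  · intro x hx y hy hxy
    obtain ⟨i, hi, hdist⟩ := hF x hx y hy hxy
    have h1 := hkk x i hi
    have h2 := hkk y i hi
    have h3 : ε / 3 ≤ dist (TT^[a i] (orbX (kk x))) (TT^[a i] (orbX (kk y))) := by
      by_contra hcon
      push Not at hcon
      have t1 := dist_triangle (TT^[a i] x) (TT^[a i] (orbX (kk x))) (TT^[a i] y)
      have t2 := dist_triangle (TT^[a i] (orbX (kk x))) (TT^[a i] (orbX (kk y))) (TT^[a i] y)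
      rw [dist_comm] at h2
      linarith
    have h4 : ∃ l < L, e ≤ dist ((TT^[a i] (orbX (kk x))).1 l) ((TT^[a i] (orbX (kk y))).1 l) := by
      by_contra hcon
      push Not at hcon
      have := hL _ _ hcon
      simp only [Set.mem_ofPred_eq] at this
      linarith
    obtain ⟨l, hl, hle⟩ := h4
    rw [TT_iter_orbX, TT_iter_orbX] at hle
    refine ⟨finProdFinEquiv (⟨i, hi⟩, ⟨l, by omega⟩), ?_⟩
    simp only [Equiv.symm_apply_apply]
    have h5 : ∀ k : ℕ, (((orbX (k + a i)).1 l : Set.Icc (0 : ℝ) 1) : ℝ)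
        = Psi ‖vec (k : ℤ) - vec (-((a i + l : ℕ) : ℤ))‖ := by
      intro k
      rw [← ff_eq]
      show ((ff (((k + a i : ℕ) : ℤ) + l) : Set.Icc (0 : ℝ) 1) : ℝ) = _
      congr 2
      push_cast
      ring
    rw [Subtype.dist_eq, Real.dist_eq, h5, h5] at hle
    exact hle

theorem vec_add_tendsto (b : ℤ) : Tendsto (fun m : ℕ => vec (b + NN m)) atTop (𝓝 (vec b)) := by
  rw [tendsto_iff_norm_sub_tendsto_zero]
  have h : ∀ m : ℕ, ‖vec (b + NN m) - vec b‖ = ‖vec (NN m)‖ := by
    intro m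
    have h1 := vec_translate (NN m) 0 b
    rw [zero_add, vec_zero, sub_zero, add_comm] at h1
    exact h1
  simp_rw [h]
  exact vec_recurrent

theorem orb_tendsto (b : ℕ) : Tendsto (fun m : ℕ => orbX (b + NN m)) atTop (𝓝 (orbX b)) := by
  rw [tendsto_subtype_rng, tendsto_pi_nhds]
  intro j
  rw [tendsto_subtype_rng]
  show Tendsto (fun m : ℕ => Psi ‖vec (((b + NN m : ℕ) : ℤ) + j)‖) atTop (𝓝 (Psi ‖vec ((b : ℤ) + j)‖))
  have h := (continuous_Psi.comp continuous_norm).tendsto (vec ((b : ℤ) + j))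
  have h2 := h.comp (vec_add_tendsto ((b : ℤ) + j))
  refine h2.congr fun m => ?_
  show Psi ‖vec _‖ = Psi ‖vec _‖
  congr 3
  push_cast
  ring

theorem NN_ge_self (m : ℕ) : m ≤ NN m := by
  have h := NN_ge m
  have h2 : m < 2 ^ m := Nat.lt_two_pow_self
  have h3 : ((2 ^ m : ℕ) : ℝ) ≤ NN m := by push_cast; exact h
  have h4 : 2 ^ m ≤ NN m := by exact_mod_cast h3
  omega

theorem transitive_aux (U V : Set XX) (hU : IsOpen U) (hV : IsOpen V) (hUn : U.Nonempty)
    (hVn : V.Nonempty) : ∃ n : ℕ, 1 ≤ n ∧ (V ∩ TT^[n] ⁻¹' U).Nonempty := by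
  obtain ⟨k, hk⟩ := dense_orbX.exists_mem_open hV hVn
  obtain ⟨b, hb⟩ := dense_orbX.exists_mem_open hU hUn
  have h := (orb_tendsto b).eventually (hU.mem_nhds hb)
  obtain ⟨m, hm, hmk⟩ := (h.and (eventually_ge_atTop (k + 1))).exists
  have h1 := NN_ge_self m
  refine ⟨b + NN m - k, by omega, orbX k, hk, ?_⟩
  show TT^[b + NN m - k] (orbX k) ∈ U
  rw [TT_iter_orbX]
  have h2 : k + (b + NN m - k) = b + NN m := by omega
  rw [h2]
  exact hm

theorem const_mem {S : ℕ → ℝ} (hS : Tendsto S atTop atTop) {τ : Set.Icc (0 : ℝ) 1}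
    (hτ : ∀ n, Psi (S n) = τ) : (fun _ => τ : Om) ∈ XX := by
  have hk : ∀ n, ∃ k : ℕ, 0 < S n → |‖vec k‖ - S n| ≤ ‖vec 1‖ := by
    intro n
    have hex := vec_unbounded (S n)
    classical
    refine ⟨Nat.find hex, fun hpos => ?_⟩
    have h1 := Nat.find_spec hex
    have h0 : Nat.find hex ≠ 0 := by
      intro h0
      rw [h0] at h1
      rw [Nat.cast_zero, vec_zero, norm_zero] at h1
      linarith
    obtain ⟨q, hq⟩ := Nat.exists_eq_succ_of_ne_zero h0
    have h2 := Nat.find_min hex (m := q) (by omega)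
    push Not at h2
    rw [hq] at h1 ⊢
    have h3 : ‖vec ((q.succ : ℕ) : ℤ)‖ ≤ ‖vec (q : ℤ)‖ + ‖vec 1‖ := by
      have h4 := vec_translate 1 0 (q : ℤ)
      rw [zero_add, vec_zero, sub_zero] at h4
      have h5 : ((q.succ : ℕ) : ℤ) = 1 + q := by push_cast; ring
      rw [h5, ← h4]
      have h6 := norm_add_le (vec (q : ℤ)) (vec (1 + (q : ℤ)) - vec (q : ℤ))
      simpa using h6
    rw [abs_le]
    constructor
    · linarith [norm_nonneg (vec 1)]
    · linarith
  choose k hk using hk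
  refine mem_closure_of_tendsto (f := fun n : ℕ => orb (k n)) (b := atTop) ?_
    (Eventually.of_forall fun n => ⟨k n, rfl⟩)
  rw [tendsto_pi_nhds]
  intro j
  rw [tendsto_subtype_rng]
  show Tendsto (fun n => Psi ‖vec ((k n : ℤ) + j)‖) atTop (𝓝 (τ : ℝ))
  set c := ‖vec 1‖ + ‖vec (j : ℤ)‖ with hc
  have hc0 : 0 ≤ c := by positivity
  rw [tendsto_iff_norm_sub_tendsto_zero]
  have hbound : Tendsto (fun n => c / (S n - c)) atTop (𝓝 0) :=
    Tendsto.div_atTop tendsto_const_nhds (tendsto_atTop_add_const_right _ _ hS)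
  refine squeeze_zero' (Eventually.of_forall fun n => norm_nonneg _) ?_ hbound
  filter_upwards [hS.eventually_gt_atTop c] with n hn
  have hSpos : 0 < S n := lt_of_le_of_lt hc0 hn
  have h1 := hk n hSpos
  have h2 : |‖vec ((k n : ℤ) + j)‖ - S n| ≤ c := by
    have h4 := vec_translate (j : ℤ) 0 (k n : ℤ)
    rw [zero_add, vec_zero, sub_zero, add_comm] at h4
    have h5 : |‖vec ((k n : ℤ) + j)‖ - ‖vec (k n : ℤ)‖| ≤ ‖vec (j : ℤ)‖ := by
      rw [← h4]
      exact abs_norm_sub_norm_le _ _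
    have a1 := abs_le.mp h1
    have a2 := abs_le.mp h5
    rw [abs_le]; constructor <;> linarith
  have a3 := abs_le.mp h2
  have h3 := psiOK.slow ‖vec ((k n : ℤ) + j)‖ (S n) (S n - c) (by linarith) (by linarith)
    (by linarith)
  rw [hτ n] at h3
  rw [Real.norm_eq_abs]
  refine h3.trans ?_
  apply div_le_div_of_nonneg_right h2 (by linarith)

/-- constant sequences -/
theorem zero_mem : (fun _ => (⟨0, by simp⟩ : Set.Icc (0 : ℝ) 1) : Om) ∈ XX := by
  refine const_mem (S := fun n : ℕ => Real.exp (Real.pi + n * (2 * Real.pi)) - 1) ?_ ?_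
  · apply tendsto_atTop_add_const_right
    apply Real.tendsto_exp_atTop.comp
    apply tendsto_atTop_add_const_left
    exact tendsto_natCast_atTop_atTop.atTop_mul_const Real.two_pi_pos
  · intro n
    unfold Psi
    have h1 : 0 ≤ Real.exp (Real.pi + n * (2 * Real.pi)) - 1 := by
      have : 0 ≤ Real.pi + n * (2 * Real.pi) := by positivity
      linarith [Real.one_le_exp this]
    rw [abs_of_nonneg h1]
    have h2 : 1 + (Real.exp (Real.pi + n * (2 * Real.pi)) - 1)
        = Real.exp (Real.pi + n * (2 * Real.pi)) := by ring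
    rw [h2, Real.log_exp, Real.cos_add_nat_mul_two_pi, Real.cos_pi]
    norm_num

theorem one_mem : (fun _ => (⟨1, by simp⟩ : Set.Icc (0 : ℝ) 1) : Om) ∈ XX := by
  refine const_mem (S := fun n : ℕ => Real.exp (0 + n * (2 * Real.pi)) - 1) ?_ ?_
  · apply tendsto_atTop_add_const_right
    apply Real.tendsto_exp_atTop.comp
    apply tendsto_atTop_add_const_left
    exact tendsto_natCast_atTop_atTop.atTop_mul_const Real.two_pi_pos
  · intro n
    unfold Psi
    have h1 : 0 ≤ Real.exp (0 + n * (2 * Real.pi)) - 1 := by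
      have : 0 ≤ 0 + n * (2 * Real.pi) := by positivity
      linarith [Real.one_le_exp this]
    rw [abs_of_nonneg h1]
    have h2 : 1 + (Real.exp (0 + n * (2 * Real.pi)) - 1)
        = Real.exp (0 + n * (2 * Real.pi)) := by ring
    rw [h2, Real.log_exp, Real.cos_add_nat_mul_two_pi, Real.cos_zero]
    norm_num

end Pool.Agent.H117R3.NullSys
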